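import Mathlib

/-!
# The Gaussian half-factor is not a Pólya frequency function of order 12
-/

open MeasureTheory Set Filter Topology Finset

namespace Pool.Agent.Results.MP_41e59c_pr.NotPF12

/-- The half-factor `g(z) = (2/π)^{1/4} exp(π²/12 + z - ∫_0^{e^z} log(1+t)/t dt)`. -/
noncomputable def g (z : ℝ) : ℝ :=
  (2 / Real.pi) ^ (1 / 4 : ℝ) *
    Real.exp (Real.pi ^ 2 / 12 + z - ∫ t in (0 : ℝ)..Real.exp z, Real.log (1 + t) / t)

/-! ## Integer data -/

/-- `Vl[j] = 25^(j+1)` times the `j`-th derivative of the logistic function. -/
def Vl : List ℤ := [19, 114, -1482, -6726, 1101126, -21358470, -1176982170, 92570435610, -135956582970, -365724227730630, 19507709833990950, 1140911974607631450, -214182262400887721850, 4396700618529309699450, 1858828229806572269912550, -195033822350983918869051750, -8838422656943657130920024250, 3734096674555883525633499320250, -194980633459269883490449414844250, -52208980800827350221769509025875750, 9509333169776048822252174114161503750, 196064430215214622745236156449734816250]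

/-- `Ml[k] = 25^k` times the `k`-th derivative of the tilted function divided by its value. -/
def Ml : List ℤ := [1, 0, -475, -2850, 713925, 13705650, -1817862525, -72357353250, 6437136874875, 451840649252250, -28565940962593875, -3324174463325616750, 147712486944059255625, 28404715728223560888750, -830793507827740902388125, -277836098844259540543886250, 4605411544860905672919376875, 3068587566009721272431455931250, -19206529314660329366430871471875, -37742553656942150157668389600068750, -57338554477461669895229640773409375, 508848824202347359697155533679617018750, 3463122616680159028391509168663236421875]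

/-- Elimination matrix. -/
def Ll : List (List ℤ) := [[1],
  [0, 1],
  [475, -6, 1],
  [-132525, 44766, -447, 28],
  [1119395925, -43762923, 4468074, -35527, 1263],
  [-3284614033805625, 755429164120917, -16996618056228, 908132973291, -5810350133, 142098598],
  [8812760255386039462755450, -552790541375126855485110, 50773597068836960046075, -795539741194062735750, 28102714358545685050, -145795071403122500, 2765667903374643],
  [-28809521481434420240825445142536600, 6208138345588169471806206866303130, -199441950821157331810228648436385, 10931717109790877831541166123025, -127420467148163442377727647250, 3415915252667998063564898150, -14382534507829185023905739, 231685696242487520309753],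
  [79830702393535036138611417034482775102881223350, -6120097419477866876670402155269845252851391780, 596475493346326163175676869536891146143112800, -12411538549886132274132962382782110075109270, 492364126213314293581021910379255375002475, -4377285609051326871901588451756248298600, 98707720494134820497322261426059208134, -333720589788794278023550389025453130, 4954793693521347829107411151071651],
  [-10247987958093540526933581605866289684881925651646618689767800, 2477795866634359184430857146171394948576705604373642493325090, -89729781844660102523258662568901032654476996408585254108810, 5765856917587593848050267014208918091666731671340928534670, -83316121806494889513979331748293016402113274419141381910, 2744429389272516673437561893235260604724705802413240575, -18494202922261095549450260394661509668055489073979762, 387518835430885906731018990924345663679260867232308, -1018955599756460085083084804562078450345728217726, 15282783696600352552625470977716472459554887603],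
  [414374022076048827755618018208239554033825202377709170193871853552685198437350, -30095419246913238648106160229258088205971385987887157866936582227484890866580, 3832095605352395064871339264054978302662420723626199329717538214545321830170, -80434069199132843419223439106507753365794767590629381762831827138631790840, 4298628934110270230355198504017181677995492426401426549813855830516975145, -42458340987333036137268141051416950329788627901162942737034017451642450, 1352755416012584536057450378657930617338343093836608416839671458501469, -6515978242492735223085424416772519282263221871495374969293505072956, 145649415368663051827361187140084708135581509622453128692473694727, -274241464676846817249948172000660543178690759461773102635182466, 4773256087898630976082164553116351416401664027095624250033315],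
  [-250048949449117887037472323636386105657647029642562411197416547971395833923657623402337469749750, 148886963928643900292823373989320632443185130518730839337858907076451033639214314247688599189200, -3231559909348709045003770056201811664954885069138737983178413985877798382595252612141851353250, 454946090688775325277943462902986178094701421659551564534214779532461213693962607192914369500, -4427199852138883479825338223009002167219969518229165831621837755377177562603243242326070625, 315034943529265732706238450694415645227496503269755947661904163445394285403512397201332300, -1599121759642136185135022464498551643382016623933069823607480548523938103319117918979945, 74914396368836920244775867758242539034242715966250733402253061189718886809562465769350, -189226574330921007520619230528384321307855693705651310986545940742445957405576469975, 6768601452607646286333697482362186837518145223741366173568815894821218132161431800, -6534299098881488515179005718933981404662735752049179309589241627097617459851055, 198155082312644292173002522210825457084508255368052024316945290444234194366134]]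

def Dl : List ℤ := [1, -475, 505400, -691300776600, 3508316826827543100, -145965119250749105756510799732900, 226090399334489905819028811745374312085273842742500, -7695932828741221916559802269237611745730314430934973691929402982627500, 19290705423611996724518239386629062051551589921691514207199969276720552782760958277700255095000, -1059283296041223443595768109455398989535380963940326547420001196249764821241691127116443275074438311416135629280225166975000, 521913426878750983634295368231957688335558583953815526523585223983640671807298811837078933706611160129067856463908486469758523196975941834425553278298900000, 621002188503294221466942785109636383579744748220217770527302557468363812451308712791298634917644004296616234395610977618421189084476016686341268264700788491922342903266958693810508461208500000]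

def V (j : ℕ) : ℤ := Vl.getD j 0
def M (j : ℕ) : ℤ := Ml.getD j 0
def L (i j : Fin 12) : ℤ := (Ll.getD i []).getD j 0
def D (i : Fin 12) : ℤ := Dl.getD i 0

theorem V_rec : ∀ j < 21, V (j + 1) = 25 * V j - ∑ i ∈ range (j + 1), (j.choose i : ℤ) * V i * V (j - i) := by
  decide +kernel

theorem M_rec : ∀ k < 22, M (k + 1) =
    - (25 * ∑ i ∈ range k, (k.choose (i + 1) : ℤ) * V i * M (k - (i + 1))) := by
  decide +kernel

theorem elim : ∀ i j : Fin 12,
    (∑ k : Fin 12, (∑ l : Fin 12, L i l * M ((l : ℕ) + k)) * L j k) = if i = j then D i else 0 := by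
  decide +kernel

theorem L_low : ∀ i j : Fin 12, i < j → L i j = 0 := by decide +kernel

theorem L_diag : ∏ i, L i i ≠ 0 := by decide +kernel

theorem D_neg : ∏ i, D i < 0 := by decide +kernel

/-- The Hankel determinant is negative. -/
theorem hankel_int : (Matrix.of fun i j : Fin 12 => M ((i : ℕ) + j)).det < 0 := by
  set A : Matrix (Fin 12) (Fin 12) ℤ := Matrix.of fun i j : Fin 12 => M ((i : ℕ) + j) with hA
  set LL : Matrix (Fin 12) (Fin 12) ℤ := Matrix.of fun i j : Fin 12 => L i j with hL
  have h1 : LL * A * LL.transpose = Matrix.diagonal D := by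
    ext i j
    rw [Matrix.mul_apply]
    simp only [Matrix.mul_apply, Matrix.transpose_apply, Matrix.diagonal_apply, hA, hL,
      Matrix.of_apply]
    exact elim i j
  have h2 : LL.det = ∏ i, L i i := by
    refine Matrix.det_of_isLowerTriangular LL ?_
    intro i j hij
    exact L_low i j hij
  have h3 := congrArg Matrix.det h1
  rw [Matrix.det_mul, Matrix.det_mul, Matrix.det_transpose, Matrix.det_diagonal, h2] at h3
  have h4 : 0 < (∏ i, L i i) * (∏ i, L i i) := mul_self_pos.2 L_diag
  have h5 := D_neg
  by_contra h6
  rw [not_lt] at h6
  have h7 : (∏ i, L i i) * A.det * (∏ i, L i i) = ((∏ i, L i i) * (∏ i, L i i)) * A.det := by ring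
  rw [h7] at h3
  have := mul_nonneg h4.le h6
  omega

/-! ## Finite differences -/

/-- forward difference -/
def dif (h : ℝ) (f : ℝ → ℝ) : ℝ → ℝ := fun x => f (x + h) - f x

theorem dif_mean (h : ℝ) (hh : 0 < h) (k : ℕ) : ∀ (f : ℝ → ℝ), ContDiff ℝ (⊤ : ℕ∞) f → ∀ z : ℝ,
    ∃ ξ ∈ Icc z (z + k * h), (fwdDiff h)^[k] f z = h ^ k * iteratedDeriv k f ξ := by
  induction k with
  | zero =>
    intro f hf z
    refine ⟨z, ⟨le_refl _, by simp⟩, by simp⟩
  | succ k ih =>
    intro f hf z
    have hF : ContDiff ℝ (⊤ : ℕ∞) (fwdDiff h f) := by
      unfold fwdDiff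
      exact (hf.comp (contDiff_id.add contDiff_const)).sub hf
    obtain ⟨ξ, hξ, he⟩ := ih (fwdDiff h f) hF z
    have hd : iteratedDeriv k (fwdDiff h f) ξ = iteratedDeriv k f (ξ + h) - iteratedDeriv k f ξ := by
      have e1 : fwdDiff h f = (fun x => f (x + h)) - f := by
        funext x
        rfl
      rw [e1, iteratedDeriv_sub]
      · rw [iteratedDeriv_comp_add_const]
      · exact ((hf.comp (contDiff_id.add contDiff_const)).contDiffAt).of_le (by exact_mod_cast le_top)
      · exact hf.contDiffAt.of_le (by exact_mod_cast le_top)
    have hcont : Continuous (iteratedDeriv k f) := hf.continuous_iteratedDeriv k (by exact_mod_cast le_top)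
    have hdiff : ∀ x, HasDerivAt (iteratedDeriv k f) (iteratedDeriv (k + 1) f x) x := by
      intro x
      have hdf : Differentiable ℝ (iteratedDeriv k f) :=
        hf.differentiable_iteratedDeriv k (by exact_mod_cast WithTop.coe_lt_top k)
      have := (hdf x).hasDerivAt
      rw [iteratedDeriv_succ]
      exact this
    obtain ⟨c, hc, hc'⟩ := exists_hasDerivAt_eq_slope (iteratedDeriv k f) (iteratedDeriv (k + 1) f)
      (show ξ < ξ + h by linarith) hcont.continuousOn (fun x _ => hdiff x)
    refine ⟨c, ⟨?_, ?_⟩, ?_⟩
    · exact hξ.1.trans hc.1.le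
    · have := hc.2
      have := hξ.2
      push_cast
      nlinarith
    · rw [Function.iterate_succ_apply, he, hd, hc', pow_succ]
      have : ξ + h - ξ = h := by ring
      rw [this]
      field_simp

theorem dif_tendsto (f : ℝ → ℝ) (hf : ContDiff ℝ (⊤ : ℕ∞) f) (z : ℝ) (k : ℕ) :
    Tendsto (fun n : ℕ => (fwdDiff (1 / ((n : ℝ) + 1)))^[k] f z / (1 / ((n : ℝ) + 1)) ^ k) atTop
      (𝓝 (iteratedDeriv k f z)) := by
  have hpos : ∀ n : ℕ, (0 : ℝ) < 1 / ((n : ℝ) + 1) := fun n => by positivity
  choose ξ hξ he using fun n : ℕ => dif_mean (1 / ((n : ℝ) + 1)) (hpos n) k f hf z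
  have h1 : Tendsto (fun n : ℕ => z + k * (1 / ((n : ℝ) + 1))) atTop (𝓝 z) := by
    have := (tendsto_one_div_add_atTop_nhds_zero_nat (𝕜 := ℝ)).const_mul (k : ℝ)
    have := this.const_add z
    simpa using this
  have h2 : Tendsto ξ atTop (𝓝 z) :=
    tendsto_of_tendsto_of_tendsto_of_le_of_le tendsto_const_nhds h1 (fun n => (hξ n).1)
      (fun n => (hξ n).2)
  have hcont : Continuous (iteratedDeriv k f) := hf.continuous_iteratedDeriv k (by exact_mod_cast le_top)
  refine ((hcont.tendsto z).comp h2).congr fun n => ?_
  have := hpos n
  rw [he n]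
  simp only [Function.comp]
  field_simp

/-- The congruence between shift and difference Hankel matrices. -/
theorem hankel_shift (n : ℕ) (f : ℝ → ℝ) (h z : ℝ) :
    (Matrix.of fun i j : Fin n => f (z + ((i : ℕ) + (j : ℕ) : ℕ) * h)).det =
      (Matrix.of fun i j : Fin n => (fwdDiff h)^[(i : ℕ) + j] f z).det := by
  set B : Matrix (Fin n) (Fin n) ℝ := Matrix.of fun i a : Fin n => ((i : ℕ).choose a : ℝ) with hB
  set N : Matrix (Fin n) (Fin n) ℝ := Matrix.of fun i j : Fin n => (fwdDiff h)^[(i : ℕ) + j] f z
  have hdetB : B.det = 1 := by
    rw [Matrix.det_of_isLowerTriangular B]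
    · refine Finset.prod_eq_one fun i _ => ?_
      simp [hB]
    · intro i j hij
      have : (i : ℕ) < j := hij
      simp [hB, Nat.choose_eq_zero_of_lt this]
  have hsum : ∀ (F : ℕ → ℝ) (i : Fin n),
      ∑ k ∈ range ((i : ℕ) + 1), (i : ℕ).choose k • F k = ∑ a : Fin n, ((i : ℕ).choose a : ℝ) * F a := by
    intro F i
    rw [Fin.sum_univ_eq_sum_range (fun a => (((i : ℕ).choose a : ℕ) : ℝ) * F a) n]
    have hsub : range ((i : ℕ) + 1) ⊆ range n := by
      rw [range_subset_range]
      exact i.2
    rw [← Finset.sum_subset hsub]
    · refine Finset.sum_congr rfl fun k _ => ?_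
      rw [nsmul_eq_mul]
    · intro k _ hk
      rw [Finset.mem_range, not_lt] at hk
      rw [Nat.choose_eq_zero_of_lt (by omega)]
      simp
  have key : (Matrix.of fun i j : Fin n => f (z + ((i : ℕ) + (j : ℕ) : ℕ) * h)) = B * N * B.transpose := by
    ext i j
    simp only [Matrix.of_apply, Matrix.mul_apply, Matrix.transpose_apply, hB]
    have e1 : z + (((i : ℕ) + (j : ℕ) : ℕ) : ℝ) * h = (z + (i : ℕ) • h) + (j : ℕ) • h := by
      rw [nsmul_eq_mul, nsmul_eq_mul]
      push_cast
      ring
    rw [e1, shift_eq_sum_fwdDiff_iter h f (j : ℕ) (z + (i : ℕ) • h),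
      hsum (fun k => (fwdDiff h)^[k] f (z + (i : ℕ) • h)) j]
    refine Finset.sum_congr rfl fun b _ => ?_
    rw [shift_eq_sum_fwdDiff_iter h ((fwdDiff h)^[(b : ℕ)] f) (i : ℕ) z,
      hsum (fun k => (fwdDiff h)^[k] ((fwdDiff h)^[(b : ℕ)] f) z) i, mul_comm]
    congr 1
    refine Finset.sum_congr rfl fun a _ => ?_
    rw [← Function.iterate_add_apply]
    rfl
  rw [key, Matrix.det_mul, Matrix.det_mul, Matrix.det_transpose, hdetB, one_mul, mul_one]

/-- If all shift Hankel determinants are nonnegative, so is the derivative one. -/
theorem hankel_limit (n : ℕ) (f : ℝ → ℝ) (hf : ContDiff ℝ (⊤ : ℕ∞) f) (z : ℝ)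
    (hpos : ∀ h : ℝ, 0 < h → 0 ≤ (Matrix.of fun i j : Fin n => f (z + ((i : ℕ) + (j : ℕ) : ℕ) * h)).det) :
    0 ≤ (Matrix.of fun i j : Fin n => iteratedDeriv ((i : ℕ) + j) f z).det := by
  have hlim : Tendsto (fun m : ℕ => (Matrix.of fun i j : Fin n =>
      (fwdDiff (1 / ((m : ℝ) + 1)))^[(i : ℕ) + j] f z / (1 / ((m : ℝ) + 1)) ^ ((i : ℕ) + j)).det) atTop
      (𝓝 (Matrix.of fun i j : Fin n => iteratedDeriv ((i : ℕ) + j) f z).det) := by
    refine (Continuous.tendsto (continuous_id.matrix_det) _).comp ?_
    refine tendsto_pi_nhds.2 fun i => tendsto_pi_nhds.2 fun j => ?_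
    exact dif_tendsto f hf z ((i : ℕ) + j)
  refine ge_of_tendsto' hlim fun m => ?_
  set h : ℝ := 1 / ((m : ℝ) + 1) with hh
  have hp : 0 < h := by positivity
  have e : (Matrix.of fun i j : Fin n => (fwdDiff h)^[(i : ℕ) + j] f z / h ^ ((i : ℕ) + j))
      = Matrix.of fun i j : Fin n => (h⁻¹ ^ (i : ℕ)) * ((Matrix.of fun i j : Fin n => (h⁻¹ ^ (j : ℕ)) *
        (Matrix.of fun i j : Fin n => (fwdDiff h)^[(i : ℕ) + j] f z) i j) i j) := by
    ext i j
    simp only [Matrix.of_apply]
    rw [pow_add, div_eq_mul_inv, mul_inv, inv_pow, inv_pow]
    ring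
  rw [e, Matrix.det_mul_column, Matrix.det_mul_row, ← hankel_shift]
  have := hpos h hp
  positivity

/-! ## The function -/

/-- logistic function -/
noncomputable def p (z : ℝ) : ℝ := Real.exp z / (1 + Real.exp z)

/-- minus the logarithmic derivative of the tilted function -/
noncomputable def W (z : ℝ) : ℝ := Real.log (1 + Real.exp z) - Real.log (25 / 6)

/-- the integral -/
noncomputable def I (z : ℝ) : ℝ := ∫ t in (0 : ℝ)..Real.exp z, Real.log (1 + t) / t

/-- the tilted function -/
noncomputable def f (z : ℝ) : ℝ := Real.exp (Real.log (25 / 6) * z - I z)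

/-- the base point -/
noncomputable def z0 : ℝ := Real.log (19 / 6)

theorem exp_z0 : Real.exp z0 = 19 / 6 := Real.exp_log (by norm_num)

theorem one_exp_ne (z : ℝ) : 1 + Real.exp z ≠ 0 := by positivity

theorem intble (b : ℝ) (hb : 0 < b) :
    IntervalIntegrable (fun t : ℝ => Real.log (1 + t) / t) volume 0 b := by
  rw [intervalIntegrable_iff_integrableOn_Ioc_of_le hb.le]
  refine Integrable.mono' (g := fun _ => (1 : ℝ)) ?_ ?_ ?_
  · exact integrableOn_const (by simp)
  · exact ((Real.measurable_log.comp (measurable_const.add measurable_id)).div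
      measurable_id).aestronglyMeasurable
  · refine (ae_restrict_iff' measurableSet_Ioc).2 (Eventually.of_forall fun t ht => ?_)
    have h1 : 0 < t := ht.1
    have h2 : 0 ≤ Real.log (1 + t) := Real.log_nonneg (by linarith)
    have h3 : Real.log (1 + t) ≤ t := by
      have := Real.log_le_sub_one_of_pos (show 0 < 1 + t by linarith)
      linarith
    rw [Real.norm_of_nonneg (div_nonneg h2 h1.le), div_le_one h1]
    exact h3

theorem I_deriv (z : ℝ) : HasDerivAt I (Real.log (1 + Real.exp z)) z := by
  have hb : 0 < Real.exp z := Real.exp_pos z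
  have hc : ContinuousAt (fun t : ℝ => Real.log (1 + t) / t) (Real.exp z) := by
    refine ContinuousAt.div ?_ continuousAt_id hb.ne'
    exact (continuousAt_const.add continuousAt_id).log (by show 1 + Real.exp z ≠ 0; positivity)
  have hm : StronglyMeasurableAtFilter (fun t : ℝ => Real.log (1 + t) / t) (𝓝 (Real.exp z)) volume := by
    refine ⟨univ, univ_mem, ?_⟩
    exact ((Real.measurable_log.comp (measurable_const.add measurable_id)).div
      measurable_id).aestronglyMeasurable
  have h1 := intervalIntegral.integral_hasDerivAt_right (intble (Real.exp z) hb) hm hc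
  have h2 := h1.comp z (Real.hasDerivAt_exp z)
  have e : Real.log (1 + Real.exp z) / Real.exp z * Real.exp z = Real.log (1 + Real.exp z) := by
    field_simp
  rw [e] at h2
  exact h2

theorem log_smooth : ContDiff ℝ (⊤ : ℕ∞) (fun z : ℝ => Real.log (1 + Real.exp z)) :=
  (contDiff_const.add Real.contDiff_exp).log one_exp_ne

theorem I_smooth : ContDiff ℝ (⊤ : ℕ∞) I := by
  rw [contDiff_infty_iff_deriv]
  refine ⟨fun z => (I_deriv z).differentiableAt, ?_⟩
  have : deriv I = fun z : ℝ => Real.log (1 + Real.exp z) := by
    funext z
    exact (I_deriv z).deriv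
  rw [this]
  exact log_smooth

theorem f_smooth : ContDiff ℝ (⊤ : ℕ∞) f := by
  unfold f
  exact ((contDiff_const.mul contDiff_id).sub I_smooth).exp

theorem W_smooth : ContDiff ℝ (⊤ : ℕ∞) W := by
  unfold W
  exact log_smooth.sub contDiff_const

theorem p_smooth : ContDiff ℝ (⊤ : ℕ∞) p := by
  unfold p
  exact Real.contDiff_exp.div (contDiff_const.add Real.contDiff_exp) one_exp_ne

theorem f_pos (z : ℝ) : 0 < f z := Real.exp_pos _

theorem f_deriv : deriv f = -(W * f) := by
  funext z
  have h1 : HasDerivAt (fun z => Real.log (25 / 6) * z - I z)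
      (Real.log (25 / 6) * 1 - Real.log (1 + Real.exp z)) z :=
    ((hasDerivAt_id z).const_mul _).sub (I_deriv z)
  have h2 : HasDerivAt f (f z * (Real.log (25 / 6) * 1 - Real.log (1 + Real.exp z))) z := h1.exp
  rw [h2.deriv]
  simp only [Pi.neg_apply, Pi.mul_apply, W]
  ring

theorem W_deriv : deriv W = p := by
  funext z
  have h1 : HasDerivAt (fun z : ℝ => 1 + Real.exp z) (Real.exp z) z :=
    (Real.hasDerivAt_exp z).const_add 1
  have h2 := (h1.log (one_exp_ne z)).sub_const (Real.log (25 / 6))
  exact h2.deriv

theorem p_deriv : deriv p = p - p * p := by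
  funext z
  have h1 : HasDerivAt (fun z : ℝ => 1 + Real.exp z) (Real.exp z) z :=
    (Real.hasDerivAt_exp z).const_add 1
  have h2 : HasDerivAt p _ z := (Real.hasDerivAt_exp z).div h1 (one_exp_ne z)
  rw [h2.deriv]
  simp only [Pi.sub_apply, Pi.mul_apply, p]
  have := one_exp_ne z
  field_simp

theorem jet_p : ∀ j : ℕ, j ≤ 21 → iteratedDeriv j p z0 = (V j : ℝ) / 25 ^ (j + 1) := by
  intro j
  induction j using Nat.strong_induction_on with
  | _ j ih =>
    intro hj
    rcases j with _ | j
    · rw [iteratedDeriv_zero, p, exp_z0]
      have : V 0 = 19 := by decide +kernel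
      rw [this]
      norm_num
    · rw [iteratedDeriv_succ', p_deriv, iteratedDeriv_sub, iteratedDeriv_mul]
      · rw [ih j (Nat.lt_succ_self j) (by omega), V_rec j (by omega)]
        have e : ∀ i ∈ range (j + 1), (j.choose i : ℝ) * iteratedDeriv i p z0 * iteratedDeriv (j - i) p z0
            = ((j.choose i : ℝ) * V i * V (j - i)) / 25 ^ (j + 2) := by
          intro i hi
          rw [Finset.mem_range] at hi
          rw [ih i (by omega) (by omega), ih (j - i) (by omega) (by omega)]
          have : (25 : ℝ) ^ (j + 2) = 25 ^ (i + 1) * 25 ^ (j - i + 1) := by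
            rw [← pow_add]
            congr 1
            omega
          rw [this]
          field_simp
        rw [Finset.sum_congr rfl e, ← Finset.sum_div]
        push_cast
        rw [pow_succ (25 : ℝ) (j + 1)]
        field_simp
      · exact p_smooth.contDiffAt.of_le (by exact_mod_cast le_top)
      · exact p_smooth.contDiffAt.of_le (by exact_mod_cast le_top)
      · exact p_smooth.contDiffAt.of_le (by exact_mod_cast le_top)
      · exact (p_smooth.mul p_smooth).contDiffAt.of_le (by exact_mod_cast le_top)

theorem jet_f : ∀ k : ℕ, k ≤ 22 → iteratedDeriv k f z0 = (M k : ℝ) / 25 ^ k * f z0 := by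
  intro k
  induction k using Nat.strong_induction_on with
  | _ k ih =>
    intro hk
    rcases k with _ | k
    · rw [iteratedDeriv_zero]
      have : M 0 = 1 := by decide +kernel
      rw [this]
      norm_num
    · rw [iteratedDeriv_succ', f_deriv, iteratedDeriv_neg, iteratedDeriv_mul]
      · rw [Finset.sum_range_succ']
        have hW : iteratedDeriv 0 W z0 = 0 := by
          rw [iteratedDeriv_zero, W, exp_z0]
          norm_num
        rw [hW, M_rec k (by omega)]
        have e : ∀ i ∈ range k, (k.choose (i + 1) : ℝ) * iteratedDeriv (i + 1) W z0 *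
            iteratedDeriv (k - (i + 1)) f z0
            = ((k.choose (i + 1) : ℝ) * V i * M (k - (i + 1))) * (f z0 / 25 ^ k) := by
          intro i hi
          rw [Finset.mem_range] at hi
          rw [iteratedDeriv_succ', W_deriv, jet_p i (by omega), ih (k - (i + 1)) (by omega) (by omega)]
          have : (25 : ℝ) ^ k = 25 ^ (i + 1) * 25 ^ (k - (i + 1)) := by
            rw [← pow_add]
            congr 1
            omega
          rw [this]
          field_simp
        rw [Finset.sum_congr rfl e, ← Finset.sum_mul]
        push_cast
        rw [pow_succ (25 : ℝ) k]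
        field_simp
        ring
      · exact W_smooth.contDiffAt.of_le (by exact_mod_cast le_top)
      · exact f_smooth.contDiffAt.of_le (by exact_mod_cast le_top)

theorem sign_rev : Equiv.Perm.sign (Fin.revPerm : Equiv.Perm (Fin 12)) = 1 := by decide +kernel

theorem g_eq (z : ℝ) : g z = (2 / Real.pi) ^ (1 / 4 : ℝ) * Real.exp (Real.pi ^ 2 / 12) *
    Real.exp ((1 - Real.log (25 / 6)) * z) * f z := by
  unfold g f I
  rw [mul_assoc, mul_assoc, ← Real.exp_add, ← Real.exp_add]
  congr 2
  ring

/-- **Disproof.** There are real numbers `x_1 < ... < x_12` and `y_1 < ... < y_12` for which the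
determinant of `g (x_i - y_j)` is negative. -/
theorem result : ∃ x y : Fin 12 → ℝ, StrictMono x ∧ StrictMono y ∧
    (Matrix.of fun i j : Fin 12 => g (x i - y j)).det < 0 := by
  by_contra hcon
  push Not at hcon
  have hpos : ∀ h : ℝ, 0 < h →
      0 ≤ (Matrix.of fun i j : Fin 12 => f (z0 + ((i : ℕ) + (j : ℕ) : ℕ) * h)).det := by
    intro h hh
    set x : Fin 12 → ℝ := fun i => z0 + (i : ℕ) * h with hx
    set y : Fin 12 → ℝ := fun j => - (((Fin.rev j : Fin 12) : ℕ) * h) with hy
    have hxm : StrictMono x := by
      intro i j hij
      have : ((i : ℕ) : ℝ) < (j : ℕ) := by exact_mod_cast hij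
      simp only [hx]
      nlinarith
    have hym : StrictMono y := by
      intro i j hij
      have h1 : Fin.rev j < Fin.rev i := Fin.rev_lt_rev.2 hij
      have : (((Fin.rev j : Fin 12) : ℕ) : ℝ) < ((Fin.rev i : Fin 12) : ℕ) := by exact_mod_cast h1
      simp only [hy]
      nlinarith
    have h1 := hcon x y hxm hym
    set K : ℝ := (2 / Real.pi) ^ (1 / 4 : ℝ) * Real.exp (Real.pi ^ 2 / 12) with hK
    have hKpos : 0 < K := by positivity
    set c : ℝ := 1 - Real.log (25 / 6) with hc
    set H : Matrix (Fin 12) (Fin 12) ℝ :=
      Matrix.of fun i j : Fin 12 => f (z0 + ((i : ℕ) + (j : ℕ) : ℕ) * h) with hH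
    have e1 : (Matrix.of fun i j : Fin 12 => g (x i - y j)) =
        (Matrix.of fun i j : Fin 12 => (K * Real.exp (c * (z0 + (i : ℕ) * h))) *
          ((Matrix.of fun i j : Fin 12 => (Real.exp (c * ((j : ℕ) * h))) * H i j) i j)).submatrix id
            (Fin.revPerm : Equiv.Perm (Fin 12)) := by
      ext i j
      simp only [Matrix.of_apply, Matrix.submatrix_apply, id_eq, hx, hy, hH, Fin.revPerm_apply]
      have e2 : z0 + (i : ℕ) * h - -(((Fin.rev j : Fin 12) : ℕ) * h)
          = z0 + ((i : ℕ) + ((Fin.rev j : Fin 12) : ℕ) : ℕ) * h := by
        push_cast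
        ring
      rw [e2, g_eq, ← hc, ← hK]
      have e3 : c * (z0 + ((i : ℕ) + ((Fin.rev j : Fin 12) : ℕ) : ℕ) * h)
          = c * (z0 + (i : ℕ) * h) + c * (((Fin.rev j : Fin 12) : ℕ) * h) := by
        push_cast
        ring
      rw [e3, Real.exp_add]
      ring
    rw [e1, Matrix.det_permute', sign_rev, Matrix.det_mul_column, Matrix.det_mul_row] at h1
    simp only [Units.val_one, Int.cast_one, one_mul] at h1
    have p1 : 0 < ∏ i : Fin 12, (K * Real.exp (c * (z0 + (i : ℕ) * h))) :=
      Finset.prod_pos fun i _ => by positivity
    have p2 : 0 < ∏ j : Fin 12, Real.exp (c * ((j : ℕ) * h)) :=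
      Finset.prod_pos fun i _ => by positivity
    rw [← mul_assoc] at h1
    exact nonneg_of_mul_nonneg_right h1 (mul_pos p1 p2)
  have h2 := hankel_limit 12 f f_smooth z0 hpos
  have e4 : (Matrix.of fun i j : Fin 12 => iteratedDeriv ((i : ℕ) + j) f z0) =
      Matrix.of fun i j : Fin 12 => (f z0 * (1 / 25) ^ (i : ℕ)) *
        ((Matrix.of fun i j : Fin 12 => ((1 / 25 : ℝ) ^ (j : ℕ)) *
          ((Int.castRingHom ℝ).mapMatrix (Matrix.of fun i j : Fin 12 => M ((i : ℕ) + j))) i j) i j) := by
    ext i j
    simp only [Matrix.of_apply, RingHom.mapMatrix_apply, Matrix.map_apply, eq_intCast]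
    rw [jet_f ((i : ℕ) + j) (by omega), pow_add, one_div, inv_pow, inv_pow]
    field_simp
  rw [e4, Matrix.det_mul_column, Matrix.det_mul_row, ← RingHom.map_det] at h2
  have p1 : 0 < ∏ i : Fin 12, (f z0 * (1 / 25) ^ (i : ℕ)) :=
    Finset.prod_pos fun i _ => by
      have := f_pos z0
      positivity
  have p2 : 0 < ∏ j : Fin 12, ((1 / 25 : ℝ) ^ (j : ℕ)) :=
    Finset.prod_pos fun i _ => by positivity
  rw [← mul_assoc] at h2
  have h3 := nonneg_of_mul_nonneg_right h2 (mul_pos p1 p2)
  have h4 : ((Int.castRingHom ℝ) (Matrix.of fun i j : Fin 12 => M ((i : ℕ) + j)).det) < 0 := by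
    simp only [eq_intCast]
    exact_mod_cast hankel_int
  linarith

end Pool.Agent.Results.MP_41e59c_pr.NotPF12
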